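import Pool.Agent.W966.Vg.Stms
import Pool.Agent.W230.VF.Ident
import Pool.Agent.W405.VF.Der

/-!
# VG-TAY: Taylor coefficients of a nondegenerate power series solution
-/

set_option autoImplicit false
set_option maxHeartbeats 400000

namespace Pool.Agent.W975.VG

open MvPolynomial Pool.Agent.W966.Vf Pool.Agent.W966.Vg Pool.Agent.W230.VF

/-- The divided powers `D ^ k / k!` of a derivation. -/
noncomputable def dp {K A : Type} [Field K] [CommRing A] [Algebra K A] (D : Derivation K A A) :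
    ℕ → A →ₗ[K] A
  | 0 => LinearMap.id
  | (k + 1) => (((k : K) + 1)⁻¹) • (D : A →ₗ[K] A).comp (dp D k)

section
variable {K A : Type} [Field K] [CommRing A] [Algebra K A] (D : Derivation K A A)

lemma dp_zero (a : A) : dp D 0 a = a := rfl

lemma dp_succ' (k : ℕ) (a : A) : dp D (k + 1) a = (((k : K) + 1)⁻¹) • D (dp D k a) := rfl

lemma dp_succ [CharZero K] (k : ℕ) (a : A) : ((k : K) + 1) • dp D (k + 1) a = D (dp D k a) := by
  rw [dp_succ', smul_smul, mul_inv_cancel₀ (by exact_mod_cast Nat.succ_ne_zero k), one_smul]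

lemma dp_mul [CharZero K] (k : ℕ) (a b : A) : dp D k (a * b) =
    ∑ p ∈ Finset.HasAntidiagonal.antidiagonal k, dp D p.1 a * dp D p.2 b := by
  induction k with
  | zero => simp [dp_zero]
  | succ k ih =>
    have hk : ((k : K) + 1) ≠ 0 := by exact_mod_cast Nat.succ_ne_zero k
    have h1 : ((k : K) + 1) • dp D (k + 1) (a * b) = ((k : K) + 1) •
        ∑ p ∈ Finset.HasAntidiagonal.antidiagonal (k + 1), dp D p.1 a * dp D p.2 b := by
      rw [dp_succ, ih, map_sum]
      have h2 : ((k : K) + 1) • ∑ p ∈ Finset.HasAntidiagonal.antidiagonal (k + 1), dp D p.1 a * dp D p.2 b =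
          ∑ p ∈ Finset.HasAntidiagonal.antidiagonal (k + 1), ((p.1 : K) • dp D p.1 a) * dp D p.2 b +
          ∑ p ∈ Finset.HasAntidiagonal.antidiagonal (k + 1), dp D p.1 a * ((p.2 : K) • dp D p.2 b) := by
        rw [← Finset.sum_add_distrib, Finset.smul_sum]
        refine Finset.sum_congr rfl fun p hp => ?_
        have h3 : (p.1 : K) + p.2 = (k : K) + 1 := by
          have := Finset.HasAntidiagonal.mem_antidiagonal.mp hp
          exact_mod_cast this
        rw [← h3, add_smul, smul_mul_assoc, mul_smul_comm]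
      rw [h2, Finset.Nat.sum_antidiagonal_succ, Finset.Nat.sum_antidiagonal_succ']
      simp only [Nat.cast_zero, zero_smul, zero_mul, mul_zero, zero_add, add_zero, Nat.cast_add,
        Nat.cast_one, dp_succ]
      rw [← Finset.sum_add_distrib]
      refine Finset.sum_congr rfl fun p _ => ?_
      rw [D.leibniz, smul_eq_mul, smul_eq_mul]
      ring
    have h4 := congrArg (fun z => ((k : K) + 1)⁻¹ • z) h1
    simpa only [smul_smul, inv_mul_cancel₀ hk, one_smul] using h4

lemma dp_eq_zero (a : A) (ha : D a = 0) (k : ℕ) (hk : 1 ≤ k) : dp D k a = 0 := by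
  obtain ⟨k, rfl⟩ := Nat.exists_eq_add_of_le' hk
  induction k with
  | zero => rw [dp_succ', dp_zero, ha, smul_zero]
  | succ k ih => rw [dp_succ', ih (by omega), map_zero, smul_zero]

lemma dp_one (a : A) : dp D 1 a = D a := by
  rw [dp_succ', dp_zero]
  simp

lemma dp_eq_zero' (a : A) (ha : D (D a) = 0) (k : ℕ) (hk : 2 ≤ k) : dp D k a = 0 := by
  obtain ⟨k, rfl⟩ := Nat.exists_eq_add_of_le' hk
  induction k with
  | zero => rw [show 0 + 2 = 1 + 1 from rfl, dp_succ', dp_one, ha, smul_zero]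
  | succ k ih => rw [dp_succ', ih (by omega), map_zero, smul_zero]

lemma dp_algebraMap_mul (r : K) (a : A) (k : ℕ) :
    dp D k (algebraMap K A r * a) = algebraMap K A r * dp D k a := by
  rw [← Algebra.smul_def, map_smul, Algebra.smul_def]

/-- For `k ≥ 1` the divided power applied to an affine form. -/
lemma dp_val {N : Type} [Fintype N] (f : AF K N) (w : N → A) (k : ℕ) (hk : 1 ≤ k) :
    dp D k (f.val w) = Pool.Agent.W966.Vg.lin f (fun s => dp D k (w s)) := by
  unfold AF.val Pool.Agent.W966.Vg.lin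
  rw [map_add, dp_eq_zero D _ (D.map_algebraMap _) k hk, zero_add, map_sum]
  exact Finset.sum_congr rfl fun s _ => dp_algebraMap_mul D _ _ _

/-- The middle part of the Leibniz rule. -/
lemma dp_mul_mid [CharZero K] (k : ℕ) (hk : 1 ≤ k) (a b : A) : dp D k (a * b) =
    a * dp D k b + dp D k a * b + ∑ i ∈ Finset.Ioo 0 k, dp D i a * dp D (k - i) b := by
  rw [dp_mul, Finset.Nat.sum_antidiagonal_eq_sum_range_succ (fun i j => dp D i a * dp D j b)]
  have h1 : Finset.range (k + 1) = insert 0 (insert k (Finset.Ioo 0 k)) := by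
    ext i
    simp only [Finset.mem_range, Finset.mem_insert, Finset.mem_Ioo]
    omega
  rw [Nat.succ_eq_add_one, h1, Finset.sum_insert, Finset.sum_insert, Nat.sub_zero, Nat.sub_self,
    dp_zero, dp_zero]
  · ring
  · simp
  · simp only [Finset.mem_insert, Finset.mem_Ioo]
    omega

end

lemma dp_ext_const {K Ω : Type} [Field K] [Field Ω] [Algebra K Ω] (D : Derivation K Ω Ω)
    (k : ℕ) (f : PowerSeries Ω) : PowerSeries.constantCoeff (dp (ext D) k f) =
      dp D k (PowerSeries.constantCoeff f) := by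
  induction k with
  | zero => rfl
  | succ k ih =>
    rw [dp_succ', dp_succ', Algebra.smul_def, map_mul, ext_const, ih, PowerSeries.algebraMap_apply,
      PowerSeries.constantCoeff_C, Algebra.smul_def]

/-- The Taylor expansion of a polynomial. -/
lemma dp_aeval {K Ω ι : Type} [Field K] [CharZero K] [Field Ω] [Algebra K Ω]
    (D : Derivation K Ω Ω) (x u : ι → Ω) (hx : ∀ i, D (x i) = u i) (hu : ∀ i, D (u i) = 0)
    (Φ : MvPolynomial ι K) (k : ℕ) : dp D k (aeval x Φ) =
      (aeval (fun i => Polynomial.C (x i) + Polynomial.C (u i) * Polynomial.X) Φ :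
        Polynomial Ω).coeff k := by
  have hX : ∀ i k, dp D k (x i) =
      (Polynomial.C (x i) + Polynomial.C (u i) * Polynomial.X : Polynomial Ω).coeff k := by
    intro i k
    rcases k with _ | _ | k
    · simp [dp_zero]
    · rw [zero_add, dp_one, hx]
      simp
    · rw [dp_eq_zero' D _ (by rw [hx, hu]) _ (by omega)]
      simp [Polynomial.coeff_C, Polynomial.coeff_X]
  induction Φ using MvPolynomial.induction_on generalizing k with
  | C a =>
    rcases k with _ | k
    · simp [dp_zero, Polynomial.algebraMap_apply]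
    · rw [algHom_C, algHom_C, dp_eq_zero D _ (D.map_algebraMap _) _ (by omega),
        Polynomial.algebraMap_apply, Polynomial.coeff_C, if_neg (by omega)]
  | add p q hp hq => rw [map_add, map_add, map_add, Polynomial.coeff_add, hp, hq]
  | mul_X p i hp =>
    rw [map_mul (aeval x), map_mul (aeval _), aeval_X, aeval_X, dp_mul, Polynomial.coeff_mul]
    exact Finset.sum_congr rfl fun q _ => by rw [hp, hX]

lemma sum_dp {K Ω ι : Type} [Field K] [CharZero K] [Field Ω] [Algebra K Ω]
    (D : Derivation K Ω Ω) (x u : ι → Ω) (hx : ∀ i, D (x i) = u i) (hu : ∀ i, D (u i) = 0)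
    (Φ : MvPolynomial ι K) (d : ℕ) (hd : Φ.totalDegree ≤ d) :
    aeval x Φ + ∑ k ∈ Finset.Icc 1 d, dp D k (aeval x Φ) = aeval (fun i => x i + u i) Φ := by
  have h0 : aeval x Φ + ∑ k ∈ Finset.Icc 1 d, dp D k (aeval x Φ) =
      ∑ k ∈ Finset.range (d + 1), dp D k (aeval x Φ) := by
    rw [Finset.range_eq_Ico, Finset.sum_eq_sum_Ico_succ_bot (by omega), dp_zero]
    rfl
  rw [h0]
  simp only [dp_aeval D x u hx hu]
  set P : Polynomial Ω :=
    aeval (fun i => Polynomial.C (x i) + Polynomial.C (u i) * Polynomial.X) Φ with hP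
  have hdeg : P.natDegree < d + 1 := by
    have h1 : P = aeval (fun i => Polynomial.C (x i) + Polynomial.C (u i) * Polynomial.X)
        (MvPolynomial.map (algebraMap K Ω) Φ) := by
      rw [hP, MvPolynomial.aeval_map_algebraMap]
    have h2 := MvPolynomial.aeval_natDegree_le (m := d) (n := 1)
      (MvPolynomial.map (algebraMap K Ω) Φ)
      ((Finset.sup_mono (MvPolynomial.support_map_subset _ _)).trans hd)
      (fun i => Polynomial.C (x i) + Polynomial.C (u i) * Polynomial.X) (fun i => by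
        rw [add_comm]
        exact Polynomial.natDegree_linear_le)
    rw [h1]
    omega
  have h3 := Polynomial.eval_eq_sum_range' hdeg 1
  simp only [one_pow, mul_one] at h3
  rw [← h3, hP]
  have h4 : ∀ q : MvPolynomial ι K, Polynomial.eval 1
      (aeval (fun i => Polynomial.C (x i) + Polynomial.C (u i) * Polynomial.X) q) =
      aeval (fun i => x i + u i) q := by
    intro q
    induction q using MvPolynomial.induction_on with
    | C a => simp [Polynomial.algebraMap_apply]
    | add p q hp hq => simp [hp, hq]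
    | mul_X p i hp => simp [hp]
  exact h4 Φ

lemma lin_eq {K N S : Type} [CommRing K] [CommRing S] [Algebra K S] [Fintype N]
    (f : AF K N) (w : N → S) :
    Pool.Agent.W230.VF.lin f w = Pool.Agent.W966.Vg.lin f w := rfl

/-- Divided powers of the equations. -/
lemma higher {K Ω N J B : Type} [Field K] [CharZero K] [Field Ω] [Algebra K Ω] [Fintype N]
    [Fintype J] (α β δ : J → AF K N) (c : B → J → K) (w : N → PowerSeries Ω) (b : B)
    (D : Derivation K (PowerSeries Ω) (PowerSeries Ω)) (k : ℕ) (hk : 1 ≤ k) :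
    dp D k (∑ j, algebraMap K (PowerSeries Ω) (c b j) *
      ((α j).val w * (β j).val w - (δ j).val w)) =
      ∑ s, Jf α β δ c w b s * dp D k (w s) +
      ∑ j, algebraMap K (PowerSeries Ω) (c b j) * ∑ i ∈ Finset.Ioo 0 k,
        Pool.Agent.W966.Vg.lin (α j) (fun s => dp D i (w s)) *
          Pool.Agent.W966.Vg.lin (β j) (fun s => dp D (k - i) (w s)) := by
  rw [Jf_sum, map_sum, ← Finset.sum_add_distrib]
  refine Finset.sum_congr rfl fun j _ => ?_
  rw [dp_algebraMap_mul, map_sub, dp_mul_mid D k hk, dp_val D _ _ k hk, dp_val D _ _ k hk,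
    dp_val D _ _ k hk, lin_eq, lin_eq, lin_eq]
  have h1 : ∑ i ∈ Finset.Ioo 0 k, dp D i ((α j).val w) * dp D (k - i) ((β j).val w) =
      ∑ i ∈ Finset.Ioo 0 k, Pool.Agent.W966.Vg.lin (α j) (fun s => dp D i (w s)) *
          Pool.Agent.W966.Vg.lin (β j) (fun s => dp D (k - i) (w s)) := by
    refine Finset.sum_congr rfl fun i hi => ?_
    rw [Finset.mem_Ioo] at hi
    rw [dp_val D _ _ i (by omega), dp_val D _ _ (k - i) (by omega)]
  rw [h1]
  ring

lemma map_alg {K Ω Ω' : Type} [Field K] [Field Ω] [Field Ω'] [Algebra Ω Ω'] [Algebra K Ω]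
    [Algebra K Ω'] (hK : ∀ z : K, algebraMap K Ω' z = algebraMap Ω Ω' (algebraMap K Ω z)) (r : K) :
    PowerSeries.map (algebraMap Ω Ω') (algebraMap K (PowerSeries Ω) r) =
      algebraMap K (PowerSeries Ω') r := by
  rw [PowerSeries.algebraMap_apply, PowerSeries.algebraMap_apply, PowerSeries.map_C, hK]

lemma map_val {K Ω Ω' N : Type} [Field K] [Field Ω] [Field Ω'] [Algebra Ω Ω'] [Algebra K Ω]
    [Algebra K Ω'] (hK : ∀ z : K, algebraMap K Ω' z = algebraMap Ω Ω' (algebraMap K Ω z))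
    [Fintype N] (f : AF K N) (w : N → PowerSeries Ω) :
    PowerSeries.map (algebraMap Ω Ω') (f.val w) =
      f.val (fun s => PowerSeries.map (algebraMap Ω Ω') (w s)) := by
  simp only [AF.val, map_add, map_sum, map_mul, map_alg hK]

lemma map_Jf {K Ω Ω' N J B : Type} [Field K] [Field Ω] [Field Ω'] [Algebra Ω Ω'] [Algebra K Ω]
    [Algebra K Ω'] (hK : ∀ z : K, algebraMap K Ω' z = algebraMap Ω Ω' (algebraMap K Ω z))
    [Fintype N] [Fintype J] (α β δ : J → AF K N) (c : B → J → K)
    (w : N → PowerSeries Ω) (b : B) (s : N) :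
    PowerSeries.map (algebraMap Ω Ω') (Jf α β δ c w b s) =
      Jf α β δ c (fun s => PowerSeries.map (algebraMap Ω Ω') (w s)) b s := by
  simp only [Jf, map_add, map_sub, map_sum, map_mul, map_alg hK, map_val hK]

theorem core {K F Ω Ω' ι σ J : Type} [Field K] [CharZero K] [Field F] [Algebra K F] [Field Ω]
    [Algebra F Ω] [Algebra K Ω] [IsScalarTower K F Ω] [Fintype ι] [Fintype σ] [Fintype J]
    [Field Ω'] [Algebra Ω Ω'] [Algebra K Ω']
    (hK : ∀ z : K, algebraMap K Ω' z = algebraMap Ω Ω' (algebraMap K Ω z))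
    (x : ι → F) (a : Fin 0 → F) (T : Set σ) (w₀ : σ → Ω) (g : ↥(Tᶜ) → PowerSeries Ω)
    (γ : ↥(Tᶜ) → Ω) (e : ℕ) (α β δ : J → AF K (ι ⊕ Fin 0 ⊕ σ)) (c : ↥(Tᶜ) → J → K)
    (hw : AlgebraicIndependent F (Sum.elim (fun s : T => w₀ s) γ))
    (heq : ∀ b, ∑ j, algebraMap K (PowerSeries Ω) (c b j) *
      ((α j).val (pt x a T w₀ g) * (β j).val (pt x a T w₀ g) - (δ j).val (pt x a T w₀ g)) =
        PowerSeries.C (γ b) * PowerSeries.X ^ e)
    (u : ι → Ω') (D : Derivation K Ω' Ω')
    (hDx : ∀ i, D (algebraMap Ω Ω' (algebraMap F Ω (x i))) = u i) (hDu : ∀ i, D (u i) = 0)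
    (hDT : ∀ s : T, D (algebraMap Ω Ω' (w₀ s)) = 0) (hDγ : ∀ b, D (algebraMap Ω Ω' (γ b)) = 0) :
    ∃ (lam : (ι ⊕ Fin 0 ⊕ σ) → J → PowerSeries Ω) (mu : (ι ⊕ Fin 0 ⊕ σ) → ι → PowerSeries Ω)
      (W : ℕ → (ι ⊕ Fin 0 ⊕ σ) → PowerSeries Ω'),
      TayRec α β e lam mu u W ∧
      ∀ (o : AF K (ι ⊕ Fin 0 ⊕ σ)) (Φ : MvPolynomial ι K) (d : ℕ), Φ.totalDegree ≤ d →
        PowerSeries.constantCoeff (o.val (pt x a T w₀ g)) = algebraMap F Ω (aeval x Φ) →
        algebraMap Ω Ω' (algebraMap F Ω (aeval x Φ)) +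
          ∑ k ∈ Finset.Icc 1 d, PowerSeries.constantCoeff (Pool.Agent.W966.Vg.lin o (W k)) =
        aeval (fun i => algebraMap Ω Ω' (algebraMap F Ω (x i)) + u i) Φ := by
  classical
  set w := pt x a T w₀ g with hwdef
  have hF0 : CharZero F := charZero_of_injective_algebraMap (algebraMap K F).injective
  have hdb : ∀ b : ↥(Tᶜ), ∃ d : Derivation F Ω Ω, (∀ s : T, d (w₀ s) = 0) ∧
      ∀ b', d (γ b') = if b' = b then 1 else 0 := by
    intro b
    obtain ⟨d, hd⟩ := Pool.Agent.W405.VF.der_main F (T ⊕ ↥(Tᶜ)) Ω _ hw (Sum.inr b)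
    refine ⟨d, fun s => ?_, fun b' => ?_⟩
    · simpa using hd (Sum.inl s)
    · simpa using hd (Sum.inr b')
  choose d hdT hdγ using hdb
  -- the point
  have hwl : ∀ i, w (Sum.inl i) = PowerSeries.C (algebraMap F Ω (x i)) := fun i => rfl
  have hwT : ∀ s, s ∈ T → w (Sum.inr (Sum.inr s)) = PowerSeries.C (w₀ s) := by
    intro s hs
    have : w (Sum.inr (Sum.inr s)) = PowerSeries.C (w₀ s) +
      if h : s ∈ Tᶜ then g ⟨s, h⟩ else 0 := rfl
    rw [this, dif_neg (by simpa using hs), add_zero]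
  set Jm : Matrix ↥(Tᶜ) ↥(Tᶜ) (PowerSeries Ω) := fun b s =>
    Jf α β δ c w b (Sum.inr (Sum.inr s.1)) with hJm
  set Wm : Matrix ↥(Tᶜ) ↥(Tᶜ) (PowerSeries Ω) := fun s b =>
    ext ((d b).restrictScalars K) (w (Sum.inr (Sum.inr s.1))) with hWm
  have hsplit : ∀ (A : Type) [CommRing A] (f : ι ⊕ Fin 0 ⊕ σ → A),
      (∀ s ∈ T, f (Sum.inr (Sum.inr s)) = 0) →
      ∑ s, f s = ∑ i, f (Sum.inl i) + ∑ s : ↥(Tᶜ), f (Sum.inr (Sum.inr s.1)) := by
    intro A _ f hf
    rw [Fintype.sum_sum_type, Fintype.sum_sum_type, Finset.univ_eq_empty (α := Fin 0),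
      Finset.sum_empty, zero_add]
    congr 1
    have h1 : ∑ s : ↥(Tᶜ), f (Sum.inr (Sum.inr s.1)) =
        ∑ s ∈ Finset.univ.filter (fun s => s ∈ Tᶜ), f (Sum.inr (Sum.inr s)) := by
      rw [← Finset.sum_subtype_eq_sum_filter]
      refine Finset.sum_bij' (fun s _ => ⟨s.1, s.2⟩) (fun s _ => ⟨s.1, s.2⟩) ?_ ?_ ?_ ?_ ?_ <;>
        simp
    rw [h1, Finset.sum_filter]
    refine Finset.sum_congr rfl fun s _ => ?_
    by_cases hs : s ∈ T
    · rw [hf s hs]; simp
    · rw [if_pos (by simpa using hs)]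
  have hJW : Jm * Wm = (PowerSeries.X ^ e : PowerSeries Ω) • (1 : Matrix ↥(Tᶜ) ↥(Tᶜ) _) := by
    ext1 b' b
    have h1 := first α β δ c w b' ((d b).restrictScalars K)
    rw [heq b', ext_CX] at h1
    rw [hsplit] at h1
    · rw [Matrix.mul_apply, Matrix.smul_apply, Matrix.one_apply]
      have h2 : ((d b).restrictScalars K) (γ b') = if b' = b then 1 else 0 := hdγ b b'
      rw [h2] at h1
      have h3 : ∀ y : F, ext ((d b).restrictScalars K) (PowerSeries.C (algebraMap F Ω y)) = 0 := by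
        intro y
        rw [ext_C]
        have : ((d b).restrictScalars K) (algebraMap F Ω y) = 0 := (d b).map_algebraMap y
        rw [this, map_zero]
      simp only [hwl, h3, mul_zero, Finset.sum_const_zero, zero_add] at h1
      rw [← h1]
      split_ifs <;> simp
    · intro s hs
      rw [hwT s hs, ext_C]
      have : ((d b).restrictScalars K) (w₀ s) = 0 := hdT b ⟨s, hs⟩
      rw [this, map_zero, mul_zero]
  have hWJ := inv_comm Jm Wm _ (pow_ne_zero e PowerSeries.X_ne_zero) hJW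
  set φ := PowerSeries.map (algebraMap Ω Ω') with hφ
  set w' : ι ⊕ Fin 0 ⊕ σ → PowerSeries Ω' := fun s => φ (w s) with hw'
  set W : ℕ → (ι ⊕ Fin 0 ⊕ σ) → PowerSeries Ω' := fun k s => dp (ext D) k (w' s) with hW
  have heq' : ∀ b, ∑ j, algebraMap K (PowerSeries Ω') (c b j) *
      ((α j).val w' * (β j).val w' - (δ j).val w') =
        PowerSeries.C (algebraMap Ω Ω' (γ b)) * PowerSeries.X ^ e := by
    intro b
    have := congrArg φ (heq b)
    simpa only [hφ, map_sum, map_mul, map_sub, map_alg hK, map_val hK, PowerSeries.map_C, map_pow,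
      PowerSeries.map_X] using this
  have hwl' : ∀ i, ext D (w' (Sum.inl i)) = PowerSeries.C (u i) := by
    intro i
    have : w' (Sum.inl i) = PowerSeries.C (algebraMap Ω Ω' (algebraMap F Ω (x i))) := by
      simp only [hw', hwl, hφ, PowerSeries.map_C]
    rw [this, ext_C, hDx]
  have hWx1 : ∀ i, W 1 (Sum.inl i) = PowerSeries.C (u i) := by
    intro i
    simp only [hW]
    rw [dp_one, hwl']
  have hWx2 : ∀ k, 2 ≤ k → ∀ i, W k (Sum.inl i) = 0 := by
    intro k hk i
    simp only [hW]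
    refine dp_eq_zero' _ _ ?_ k hk
    rw [hwl', ext_C, hDu, map_zero]
  have hWT : ∀ k, 1 ≤ k → ∀ s ∈ T, W k (Sum.inr (Sum.inr s)) = 0 := by
    intro k hk s hs
    simp only [hW]
    refine dp_eq_zero _ _ ?_ k hk
    have : w' (Sum.inr (Sum.inr s)) = PowerSeries.C (algebraMap Ω Ω' (w₀ s)) := by
      simp only [hw', hwT s hs, hφ, PowerSeries.map_C]
    rw [this, ext_C, hDT ⟨s, hs⟩, map_zero]
  set Q : ℕ → J → PowerSeries Ω' := fun k j => ∑ i ∈ Finset.Ioo 0 k,
    Pool.Agent.W966.Vg.lin (α j) (W i) * Pool.Agent.W966.Vg.lin (β j) (W (k - i)) with hQ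
  have hmain : ∀ k, 1 ≤ k → ∀ b, ∑ s, φ (Jm b s) * W k (Sum.inr (Sum.inr s.1)) =
      - (∑ i, φ (Jf α β δ c w b (Sum.inl i)) * W k (Sum.inl i) +
        ∑ j, algebraMap K (PowerSeries Ω') (c b j) * Q k j) := by
    intro k hk b
    have h1 := higher α β δ c w' b (ext D) k hk
    rw [heq' b, dp_eq_zero _ _ (by rw [ext_CX, hDγ, map_zero, zero_mul]) k hk, hsplit] at h1
    · simp only [hJm, hφ, map_Jf hK]
      simp only [hQ, hW]
      linear_combination -h1
    · intro s hs
      have := hWT k hk s hs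
      simp only [hW] at this
      rw [this, mul_zero]
  have hsolve : ∀ k, 1 ≤ k → ∀ (s : ↥(Tᶜ)), PowerSeries.X ^ e * W k (Sum.inr (Sum.inr s.1)) =
      - ∑ b, φ (Wm s b) * (∑ i, φ (Jf α β δ c w b (Sum.inl i)) * W k (Sum.inl i) +
        ∑ j, algebraMap K (PowerSeries Ω') (c b j) * Q k j) := by
    intro k hk s
    have h1 : ∑ b, φ (Wm s b) * ∑ s', φ (Jm b s') * W k (Sum.inr (Sum.inr s'.1)) =
        PowerSeries.X ^ e * W k (Sum.inr (Sum.inr s.1)) := by
      have h2 : ∀ s', ∑ b, φ (Wm s b) * φ (Jm b s') =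
          if s = s' then PowerSeries.X ^ e else 0 := by
        intro s'
        have := congrArg φ (congrFun (congrFun hWJ s) s')
        rw [Matrix.mul_apply, Matrix.smul_apply, Matrix.one_apply, map_sum] at this
        simp only [map_mul] at this
        rw [this]
        split_ifs <;> simp [hφ, PowerSeries.map_X]
      simp only [Finset.mul_sum, ← mul_assoc]
      rw [Finset.sum_comm]
      simp only [← Finset.sum_mul, h2, ite_mul, zero_mul, Finset.sum_ite_eq, Finset.mem_univ,
        if_true]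
    rw [← h1, ← Finset.sum_neg_distrib]
    refine Finset.sum_congr rfl fun b _ => ?_
    rw [hmain k hk]
    ring
  have hWxk : ∀ k, 1 ≤ k → ∀ i, W k (Sum.inl i) = if k = 1 then PowerSeries.C (u i) else 0 := by
    intro k hk i
    split_ifs with h
    · rw [h, hWx1]
    · exact hWx2 k (by omega) i
  refine ⟨Sum.elim (fun _ _ => 0) (Sum.elim (fun _ _ => 0)
      (fun s j => if h : s ∈ Tᶜ then - ∑ b, Wm ⟨s, h⟩ b * algebraMap K (PowerSeries Ω) (c b j)
        else 0)),
    Sum.elim (fun i i' => if i' = i then PowerSeries.X ^ e else 0) (Sum.elim (fun _ _ => 0)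
      (fun s i => if h : s ∈ Tᶜ then - ∑ b, Wm ⟨s, h⟩ b * Jf α β δ c w b (Sum.inl i)
        else 0)), W, ?_, ?_⟩
  · intro k hk s
    have hif : ∀ f : ι → PowerSeries Ω',
        (if k = 1 then ∑ i, f i * PowerSeries.C (u i) else 0) =
          ∑ i, f i * W k (Sum.inl i) := by
      intro f
      simp only [hWxk k hk]
      split_ifs <;> simp
    rw [hif]
    rcases s with (s | s | s)
    · have h1 : ∀ i, φ (if i = s then PowerSeries.X ^ e else 0) * W k (Sum.inl i) =
          if i = s then PowerSeries.X ^ e * W k (Sum.inl i) else 0 := by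
        intro i
        split_ifs
        · rw [map_pow, hφ, PowerSeries.map_X]
        · rw [map_zero, zero_mul]
      simp only [Sum.elim_inl, map_zero, zero_mul, Finset.sum_const_zero, zero_add]
      rw [Finset.sum_congr rfl fun i _ => h1 i]
      simp
    · exact s.elim0
    · by_cases hs : s ∈ T
      · rw [hWT k hk s hs]
        simp [hs]
      · have hs' : s ∈ Tᶜ := hs
        rw [hsolve k hk ⟨s, hs'⟩]
        simp only [Sum.elim_inr, dif_pos hs']
        have h2 := swap (fun b => φ (Wm ⟨s, hs'⟩ b))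
          (fun b j => algebraMap K (PowerSeries Ω') (c b j)) (Q k)
          (fun b i => φ (Jf α β δ c w b (Sum.inl i))) (fun i => W k (Sum.inl i))
        rw [h2]
        simp only [map_neg, map_sum, map_mul, hφ, map_alg hK, hQ]
  · intro o Φ n hn hΦ
    haveI : IsScalarTower K Ω Ω' := IsScalarTower.of_algebraMap_eq hK
    have h0 : algebraMap Ω Ω' (algebraMap F Ω (aeval x Φ)) =
        aeval (fun i => algebraMap Ω Ω' (algebraMap F Ω (x i))) Φ := by
      rw [← MvPolynomial.aeval_algebraMap_apply Ω x Φ, ← MvPolynomial.aeval_algebraMap_apply Ω' _ Φ]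
      rfl
    have h1 : ∀ k ∈ Finset.Icc 1 n,
        PowerSeries.constantCoeff (Pool.Agent.W966.Vg.lin o (W k)) =
          dp D k (aeval (fun i => algebraMap Ω Ω' (algebraMap F Ω (x i))) Φ) := by
      intro k hk
      have hk1 := (Finset.mem_Icc.mp hk).1
      have h2 := dp_val (ext D) o w' k hk1
      rw [hW, ← h2, dp_ext_const]
      congr 1
      have h3 : o.val w' = φ (o.val w) := (map_val hK o w).symm
      rw [h3, ← h0, ← hΦ, hφ, ← PowerSeries.coeff_zero_eq_constantCoeff_apply,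
        ← PowerSeries.coeff_zero_eq_constantCoeff_apply, PowerSeries.coeff_map]
    rw [Finset.sum_congr rfl h1, h0]
    exact sum_dp D _ u hDx hDu Φ n hn

/-- **VG-TAY** -/
theorem tay : S_TAY := by
  classical
  intro K F Ω ι σ J _ _ _ _ _ _ _ _ _ _ _ x a T w₀ g γ e α β δ c hx hw _ heq
  obtain ⟨Ω', _, _, u, hu⟩ : ∃ (Ω' : Type) (_ : Field Ω') (_ : Algebra Ω Ω') (u : ι → Ω'),
      AlgebraicIndependent Ω u := by
    refine ⟨FractionRing (MvPolynomial ι Ω), inferInstance, inferInstance,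
      fun b => algebraMap (MvPolynomial ι Ω) (FractionRing (MvPolynomial ι Ω)) (X b), ?_⟩
    have h1 := MvPolynomial.algebraicIndependent_X ι Ω
    exact h1.map' (f := IsScalarTower.toAlgHom Ω (MvPolynomial ι Ω)
      (FractionRing (MvPolynomial ι Ω))) (IsFractionRing.injective _ _)
  letI : Algebra K Ω' := ((algebraMap Ω Ω').comp (algebraMap K Ω)).toAlgebra
  have hK : ∀ z : K, algebraMap K Ω' z = algebraMap Ω Ω' (algebraMap K Ω z) := fun _ => rfl
  haveI : IsScalarTower K Ω Ω' := IsScalarTower.of_algebraMap_eq hK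
  have hx' : AlgebraicIndependent K (fun i => algebraMap F Ω (x i)) :=
    (hx.map' (f := IsScalarTower.toAlgHom K F Ω) (algebraMap F Ω).injective)
  have hall : AlgebraicIndependent K (Sum.elim (Sum.elim (fun s : T => w₀ s) γ)
      (fun i => algebraMap F Ω (x i))) :=
    AlgebraicIndependent.sumElim_of_tower (S := F) hx'
      (by rintro _ ⟨i, rfl⟩; exact ⟨x i, rfl⟩) hw
  have hall' : AlgebraicIndependent K (fun v => algebraMap Ω Ω' ((Sum.elim (Sum.elim
      (fun s : T => w₀ s) γ) (fun i => algebraMap F Ω (x i))) v)) :=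
    (hall.map' (f := IsScalarTower.toAlgHom K Ω Ω') (algebraMap Ω Ω').injective)
  have hall2 : AlgebraicIndependent K (Sum.elim u (fun v => algebraMap Ω Ω' ((Sum.elim (Sum.elim
      (fun s : T => w₀ s) γ) (fun i => algebraMap F Ω (x i))) v))) :=
    AlgebraicIndependent.sumElim_of_tower (S := Ω) hall'
      (by rintro _ ⟨v, rfl⟩; exact ⟨_, rfl⟩) hu
  have hDi : ∀ i : ι, ∃ D : Derivation K Ω' Ω',
      (∀ j, D (algebraMap Ω Ω' (algebraMap F Ω (x j))) = if j = i then 1 else 0) ∧
      (∀ j, D (u j) = 0) ∧ (∀ s : T, D (algebraMap Ω Ω' (w₀ s)) = 0) ∧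
      ∀ b, D (algebraMap Ω Ω' (γ b)) = 0 := by
    intro i
    obtain ⟨D, hD⟩ := Pool.Agent.W405.VF.der_main K (ι ⊕ ((T ⊕ ↥(Tᶜ)) ⊕ ι)) Ω' _ hall2
      (Sum.inr (Sum.inr i))
    refine ⟨D, fun j => ?_, fun j => ?_, fun s => ?_, fun b => ?_⟩
    · simpa using hD (Sum.inr (Sum.inr j))
    · simpa using hD (Sum.inl j)
    · simpa using hD (Sum.inr (Sum.inl (Sum.inl s)))
    · simpa using hD (Sum.inr (Sum.inl (Sum.inr b)))
  choose D hDx hDu hDT hDγ using hDi
  set D' : Derivation K Ω' Ω' := ∑ i, u i • D i with hD'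
  have hval : ∀ y, D' y = ∑ i, u i * D i y := by
    intro y
    rw [hD', ← Derivation.coeFnAddMonoidHom_apply, map_sum, Finset.sum_apply]
    rfl
  obtain ⟨lam, mu, W, h1, h2⟩ := core hK x a T w₀ g γ e α β δ c hw heq u D'
    (fun i => by rw [hval]; simp [hDx])
    (fun i => by rw [hval]; simp [hDu])
    (fun s => by rw [hval]; simp [hDT])
    (fun b => by rw [hval]; simp [hDγ])
  exact ⟨Ω', inferInstance, inferInstance, inferInstance, u, lam, mu, W, hu, hK, h1, h2⟩

end Pool.Agent.W975.VG
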